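import Pool.Agent.helper65.CS.Dim
import Pool.Agent.helper5.EY.Comp

set_option autoImplicit false
set_option linter.unusedSectionVars false

/-!
# CS-Main: a finite eigenscheme of a form of degree `q + 1` in `N` variables has degree `1 + q + ... + q ^ (N - 1)`
-/

namespace EY.CS

open MvPolynomial LinearAlgebra.Projectivization

noncomputable section

variable {N : ℕ}

lemma chI_eq (f : MvPolynomial (Fin N) ℂ) (l : Fin N → ℂ) :
    chI (fun i => pderiv i f) l = chartIdeal f l := rfl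

lemma LL_eq (l : Fin N → ℂ) : LL l = linForm l := rfl

lemma DD_eq {q : ℕ} (hq : 2 ≤ q) (N : ℕ) : (q - 1) * DD q N + 1 = q ^ N := by
  induction N with
  | zero => simp [DD]
  | succ N ih =>
    have h1 : DD q (N + 1) = DD q N + q ^ N := by
      unfold DD; rw [Finset.sum_range_succ]
    rw [h1, mul_add, pow_succ]
    obtain ⟨r, rfl⟩ : ∃ r, q = r + 2 := ⟨q - 2, by omega⟩
    have h2 : r + 2 - 1 = r + 1 := by omega
    rw [h2] at ih ⊢
    rw [← ih]
    ring

lemma isEigenvector_smul {q : ℕ} {f : MvPolynomial (Fin N) ℂ} (hf : f.IsHomogeneous (q + 1)) {v : Fin N → ℂ}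
    (hv : IsEigenvector f v) {c : ℂ} (hc : c ≠ 0) : IsEigenvector f (c • v) := by
  refine ⟨smul_ne_zero hc hv.1, fun i j => ?_⟩
  have h1 : ∀ k, eval (c • v) (pderiv k f) = c ^ q * eval v (pderiv k f) := by
    intro k
    have h2 : (pderiv k f).IsHomogeneous q := by
      have := hf.pderiv (i := k)
      rwa [Nat.add_sub_cancel] at this
    exact eval_scale h2 (fun i => rfl)
  rw [h1, h1]
  have := hv.2 i j
  simp only [Pi.smul_apply, smul_eq_mul]
  linear_combination (c * c ^ q) * this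

lemma mk_mem_eigenpoints {q : ℕ} {f : MvPolynomial (Fin N) ℂ} (hf : f.IsHomogeneous (q + 1)) {v : Fin N → ℂ}
    (hv : IsEigenvector f v) : Projectivization.mk ℂ v hv.1 ∈ eigenpoints f := by
  change IsEigenvector f (Projectivization.mk ℂ v hv.1).rep
  obtain ⟨a, ha⟩ := Projectivization.exists_smul_eq_mk_rep ℂ v hv.1
  rw [← ha]
  exact isEigenvector_smul hf hv a.ne_zero

/-- the normalized representative -/
def nrep (l : Fin N → ℂ) (P : ℙ ℂ (Fin N → ℂ)) : Fin N → ℂ := fun i => P.rep i / eval P.rep (linForm l)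

lemma nrep_eq {l v : Fin N → ℂ} (hv : v ≠ 0) (h : eval v (linForm l) = 1) :
    nrep l (Projectivization.mk ℂ v hv) = v := by
  obtain ⟨a, ha⟩ := Projectivization.exists_smul_eq_mk_rep ℂ v hv
  have ha' : (Projectivization.mk ℂ v hv).rep = (a : ℂ) • v := ha.symm
  have h1 : eval (Projectivization.mk ℂ v hv).rep (linForm l) = a := by
    rw [ha', eval_scale (linForm_isHomogeneous l) (fun i => rfl : ∀ i, ((a : ℂ) • v) i = (a : ℂ) * v i), h]
    simp
  funext i
  unfold nrep
  rw [h1, ha']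
  simp

lemma eval_nrep {l : Fin N → ℂ} {P : ℙ ℂ (Fin N → ℂ)} (h : eval P.rep (linForm l) ≠ 0) :
    eval (nrep l P) (linForm l) = 1 := by
  have h1 : ∀ i, nrep l P i = (eval P.rep (linForm l))⁻¹ * P.rep i := fun i => by
    unfold nrep; rw [div_eq_inv_mul]
  rw [eval_scale (linForm_isHomogeneous l) h1, pow_one, inv_mul_cancel₀ h]

lemma nrep_smul (l : Fin N → ℂ) (P : ℙ ℂ (Fin N → ℂ)) : nrep l P = (eval P.rep (linForm l))⁻¹ • P.rep := by
  funext i
  unfold nrep
  rw [div_eq_inv_mul]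
  rfl

/-- zeros of the chart ideal -/
lemma zero_chart_iff {q : ℕ} {f : MvPolynomial (Fin N) ℂ} (hf : f.IsHomogeneous (q + 1)) (l v : Fin N → ℂ) :
    (∀ g ∈ chartIdeal f l, eval v g = 0) ↔ IsEigenvector f v ∧ eval v (linForm l) = 1 := by
  constructor
  · intro h
    have h1 : eval v (linForm l) = 1 := by
      have := h _ (Ideal.mem_sup_right (Ideal.subset_span rfl) : linForm l - 1 ∈ chartIdeal f l)
      rw [map_sub, map_one] at this
      exact sub_eq_zero.mp this
    refine ⟨⟨?_, fun i j => ?_⟩, h1⟩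
    · rintro rfl
      have h2 : eval (0 : Fin N → ℂ) (linForm l) = 0 := by simp [linForm]
      rw [h2] at h1
      exact zero_ne_one h1
    · have := h _ (Ideal.mem_sup_left (Ideal.subset_span ⟨i, j, rfl⟩) :
        X i * pderiv j f - X j * pderiv i f ∈ chartIdeal f l)
      simpa using this
  · rintro ⟨h1, h2⟩ g hg
    have : chartIdeal f l ≤ pt v := by
      unfold chartIdeal eigIdeal
      rw [sup_le_iff, Ideal.span_le, Ideal.span_le]
      constructor
      · rintro _ ⟨i, j, rfl⟩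
        have := h1.2 i j
        exact mem_pt.mpr (by simpa using this)
      · rw [Set.singleton_subset_iff]
        exact mem_pt.mpr (by rw [map_sub, map_one, h2, sub_self])
    exact mem_pt.mp (this hg)

/-- a chart containing all the eigenpoints -/
theorem exists_chart {f : MvPolynomial (Fin N) ℂ} (hfin : (eigenpoints f).Finite) :
    ∃ l : Fin N → ℂ, ∀ P ∈ eigenpoints f, eval P.rep (linForm l) ≠ 0 := by
  classical
  obtain ⟨l, hl⟩ := exists_LL (hfin.toFinset.image fun P => P.rep) (by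
    intro v hv
    obtain ⟨P, -, rfl⟩ := Finset.mem_image.mp hv
    exact P.rep_nonzero)
  refine ⟨l, fun P hP => hl _ (Finset.mem_image.mpr ⟨P, hfin.mem_toFinset.mpr hP, rfl⟩)⟩

/-- **the degree of the chart** (Cartwright–Sturmfels): if the chart `l = 1` contains all the eigenpoints, the
ring of the eigenscheme has dimension `1 + q + ... + q ^ (N - 1)` -/
theorem finrank_chart {q : ℕ} (hq : 2 ≤ q) (f : MvPolynomial (Fin N) ℂ) (hf : f.IsHomogeneous (q + 1))
    (hfin : (eigenpoints f).Finite) (l : Fin N → ℂ) (hl : ∀ P ∈ eigenpoints f, eval P.rep (linForm l) ≠ 0) :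
    Module.finrank ℂ (MvPolynomial (Fin N) ℂ ⧸ chartIdeal f l) = DD q N := by
  classical
  have hf' : ∀ i, (pderiv i f).IsHomogeneous q := by
    intro i
    have := hf.pderiv (i := i)
    rwa [Nat.add_sub_cancel] at this
  obtain ⟨c, hc⟩ := Infinite.exists_notMem_finset (hfin.toFinset.image fun P =>
    - eval P.rep (DL (fun i => pderiv i f) l) / eval P.rep (linForm l) ^ q)
  have h : ∀ v : Fin N → ℂ, v ≠ 0 → (∀ i j, v i * eval v (pderiv j f) - v j * eval v (pderiv i f) = 0) →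
      eval v (LL l) ≠ 0 ∧ eval v (MM (fun i => pderiv i f) q l c) ≠ 0 := by
    intro v hv h1
    have hP := mk_mem_eigenpoints hf ⟨hv, h1⟩
    obtain ⟨a, ha⟩ := Projectivization.exists_smul_eq_mk_rep ℂ v hv
    have ha' : (Projectivization.mk ℂ v hv).rep = (a : ℂ) • v := ha.symm
    have hl1 := hl _ hP
    have hM : eval (Projectivization.mk ℂ v hv).rep (MM (fun i => pderiv i f) q l c) ≠ 0 := by
      intro h0
      apply hc
      refine Finset.mem_image.mpr ⟨_, hfin.mem_toFinset.mpr hP, ?_⟩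
      unfold MM at h0
      rw [map_add, map_mul, map_pow, eval_C, LL_eq] at h0
      rw [div_eq_iff (pow_ne_zero _ hl1)]
      linear_combination (-1 : ℂ) * h0
    constructor
    · intro h0
      apply hl1
      rw [ha', eval_scale (linForm_isHomogeneous l) (fun i => rfl : ∀ i, ((a : ℂ) • v) i = (a : ℂ) * v i), ← LL_eq,
        h0, mul_zero]
    · intro h0
      apply hM
      rw [ha', eval_scale (MM_hom hf' l c) (fun i => rfl : ∀ i, ((a : ℂ) • v) i = (a : ℂ) * v i), h0, mul_zero]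
  have h1 := dim_aux hq (fun i => pderiv i f) hf' l c h
  rw [chI_eq] at h1
  have h2 := DD_eq hq N
  have h3 : (q - 1) * Module.finrank ℂ (MvPolynomial (Fin N) ℂ ⧸ chartIdeal f l) = (q - 1) * DD q N := by omega
  exact Nat.eq_of_mul_eq_mul_left (by omega) h3

/-- the zeros of the chart ideal -/
lemma zeros_eq {q : ℕ} {f : MvPolynomial (Fin N) ℂ} (hf : f.IsHomogeneous (q + 1))
    (hfin : (eigenpoints f).Finite) (l : Fin N → ℂ) (hl : ∀ P ∈ eigenpoints f, eval P.rep (linForm l) ≠ 0)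
    [DecidableEq (Fin N → ℂ)] (v : Fin N → ℂ) :
    v ∈ hfin.toFinset.image (nrep l) ↔ ∀ g ∈ chartIdeal f l, eval v g = 0 := by
  rw [zero_chart_iff hf, Finset.mem_image]
  constructor
  · rintro ⟨P, hP, rfl⟩
    have hP' := hfin.mem_toFinset.mp hP
    refine ⟨?_, eval_nrep (hl P hP')⟩
    rw [nrep_smul]
    exact isEigenvector_smul hf hP' (inv_ne_zero (hl P hP'))
  · rintro ⟨h1, h2⟩
    exact ⟨_, hfin.mem_toFinset.mpr (mk_mem_eigenpoints hf h1), nrep_eq h1.1 h2⟩

lemma nrep_injOn {f : MvPolynomial (Fin N) ℂ} (l : Fin N → ℂ)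
    (hl : ∀ P ∈ eigenpoints f, eval P.rep (linForm l) ≠ 0) : Set.InjOn (nrep l) (eigenpoints f) := by
  intro P hP P' hP' h
  have h1 := hl P hP
  have h2 := hl P' hP'
  rw [nrep_smul, nrep_smul] at h
  rw [← P.mk_rep, ← P'.mk_rep, Projectivization.mk_eq_mk_iff']
  refine ⟨eval P.rep (linForm l) * (eval P'.rep (linForm l))⁻¹, ?_⟩
  rw [mul_smul, ← h, smul_smul, mul_inv_cancel₀ h1, one_smul]

/-- **Cartwright–Sturmfels**: a finite eigenscheme has degree `1 + q + ... + q ^ (N - 1)` -/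
theorem sum_mulAt {q : ℕ} (hq : 2 ≤ q) (f : MvPolynomial (Fin N) ℂ) (hf : f.IsHomogeneous (q + 1))
    (hfin : (eigenpoints f).Finite) (l : Fin N → ℂ) (hl : ∀ P ∈ eigenpoints f, eval P.rep (linForm l) ≠ 0) :
    (∀ P ∈ eigenpoints f, 1 ≤ mulAt (chartIdeal f l) (nrep l P)) ∧
    ∑ P ∈ hfin.toFinset, mulAt (chartIdeal f l) (nrep l P) = DD q N := by
  classical
  obtain ⟨h1, h2⟩ := finrank_eq_sum_mulAt (chartIdeal f l) (hfin.toFinset.image (nrep l)) (zeros_eq hf hfin l hl)
  constructor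
  · intro P hP
    have := h1 (nrep l P)
    have hz := (zeros_eq hf hfin l hl (nrep l P)).mp (Finset.mem_image.mpr ⟨P, hfin.mem_toFinset.mpr hP, rfl⟩)
    have hne : (chartIdeal f l).map (algebraMap (MvPolynomial (Fin N) ℂ)
        (Localization.AtPrime (pt (nrep l P)))) ≠ ⊤ := by
      intro h
      have h3 : chartIdeal f l ≤ pt (nrep l P) := fun g hg => mem_pt.mpr (hz g hg)
      have h4 := Ideal.map_mono (f := algebraMap (MvPolynomial (Fin N) ℂ)
        (Localization.AtPrime (pt (nrep l P)))) h3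
      rw [h, Localization.AtPrime.map_eq_maximalIdeal, top_le_iff] at h4
      exact (IsLocalRing.maximalIdeal.isMaximal _).ne_top h4
    have : Nontrivial (Localization.AtPrime (pt (nrep l P)) ⧸ (chartIdeal f l).map
      (algebraMap (MvPolynomial (Fin N) ℂ) (Localization.AtPrime (pt (nrep l P))))) :=
      Ideal.Quotient.nontrivial_iff.mpr hne
    exact Module.finrank_pos
  · rw [← finrank_chart hq f hf hfin l hl, h2, Finset.sum_image]
    intro P hP P' hP' h
    exact nrep_injOn l hl (hfin.mem_toFinset.mp hP) (hfin.mem_toFinset.mp hP') h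

/-- in any chart -/
theorem mulAt_eq_nrep {q : ℕ} (f : MvPolynomial (Fin N) ℂ) (hf : f.IsHomogeneous (q + 1))
    (l : Fin N → ℂ) (hl : ∀ P ∈ eigenpoints f, eval P.rep (linForm l) ≠ 0)
    (l' v : Fin N → ℂ) (hv : IsEigenvector f v) (h : eval v (linForm l') = 1) :
    mulAt (chartIdeal f l') v = mulAt (chartIdeal f l) (nrep l (Projectivization.mk ℂ v hv.1)) := by
  have hP := mk_mem_eigenpoints hf hv
  have h1 : eval v (linForm l) ≠ 0 := by
    intro h0
    apply hl _ hP
    obtain ⟨a, ha⟩ := Projectivization.exists_smul_eq_mk_rep ℂ v hv.1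
    have ha' : (Projectivization.mk ℂ v hv.1).rep = (a : ℂ) • v := ha.symm
    rw [ha', eval_scale (linForm_isHomogeneous l) (fun i => rfl : ∀ i, ((a : ℂ) • v) i = (a : ℂ) * v i),
      h0, mul_zero]
  rw [mulAt_chartIdeal hf l' l v h h1]
  congr 1
  obtain ⟨a, ha⟩ := Projectivization.exists_smul_eq_mk_rep ℂ v hv.1
  have ha' : (Projectivization.mk ℂ v hv.1).rep = (a : ℂ) • v := ha.symm
  funext i
  unfold nrep
  rw [ha', eval_scale (linForm_isHomogeneous l) (fun i => rfl : ∀ i, ((a : ℂ) • v) i = (a : ℂ) * v i), pow_one,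
    Pi.smul_apply, smul_eq_mul, mul_div_mul_left _ _ a.ne_zero]

/-- the degree of a component of a finite eigenscheme is between `1` and `1 + q + ... + q ^ (N - 1)` -/
theorem mulAt_mem_Icc {q : ℕ} (hq : 2 ≤ q) (f : MvPolynomial (Fin N) ℂ) (hf : f.IsHomogeneous (q + 1))
    (hfin : (eigenpoints f).Finite) (l v : Fin N → ℂ) (hv : IsEigenvector f v) (h : eval v (linForm l) = 1) :
    1 ≤ mulAt (chartIdeal f l) v ∧ mulAt (chartIdeal f l) v ≤ DD q N := by
  obtain ⟨l', hl'⟩ := exists_chart hfin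
  obtain ⟨h1, h2⟩ := sum_mulAt hq f hf hfin l' hl'
  rw [mulAt_eq_nrep f hf l' hl' l v hv h]
  have hP := mk_mem_eigenpoints hf hv
  refine ⟨h1 _ hP, ?_⟩
  rw [← h2]
  exact Finset.single_le_sum (f := fun P => mulAt (chartIdeal f l') (nrep l' P)) (fun _ _ => Nat.zero_le _)
    (hfin.mem_toFinset.mpr hP)

/-- if a component has degree `D - 1` then there is a component of degree `1` -/
theorem exists_simple {q : ℕ} (hq : 2 ≤ q) (f : MvPolynomial (Fin N) ℂ) (hf : f.IsHomogeneous (q + 1))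
    (hfin : (eigenpoints f).Finite) (l v : Fin N → ℂ) (hv : IsEigenvector f v) (h : eval v (linForm l) = 1)
    (hm : mulAt (chartIdeal f l) v + 1 = DD q N) :
    ∃ l' v' : Fin N → ℂ, IsEigenvector f v' ∧ eval v' (linForm l') = 1 ∧ mulAt (chartIdeal f l') v' = 1 := by
  classical
  obtain ⟨l', hl'⟩ := exists_chart hfin
  obtain ⟨h1, h2⟩ := sum_mulAt hq f hf hfin l' hl'
  rw [mulAt_eq_nrep f hf l' hl' l v hv h] at hm
  set P := Projectivization.mk ℂ v hv.1 with hP
  have hPe : P ∈ eigenpoints f := mk_mem_eigenpoints hf hv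
  have h3 := Finset.add_sum_erase hfin.toFinset (fun P => mulAt (chartIdeal f l') (nrep l' P))
    (hfin.mem_toFinset.mpr hPe)
  have h4 : ∑ x ∈ hfin.toFinset.erase P, mulAt (chartIdeal f l') (nrep l' x) = 1 := by
    have : mulAt (chartIdeal f l') (nrep l' P) +
      ∑ x ∈ hfin.toFinset.erase P, mulAt (chartIdeal f l') (nrep l' x) = DD q N := h3.trans h2
    omega
  obtain ⟨Q, hQ⟩ : (hfin.toFinset.erase P).Nonempty := by
    rw [Finset.nonempty_iff_ne_empty]
    intro h0
    rw [h0, Finset.sum_empty] at h4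
    exact zero_ne_one h4
  have hQe : Q ∈ eigenpoints f := hfin.mem_toFinset.mp (Finset.mem_erase.mp hQ).2
  have h5 : mulAt (chartIdeal f l') (nrep l' Q) ≤ 1 := by
    rw [← h4]
    exact Finset.single_le_sum (f := fun P => mulAt (chartIdeal f l') (nrep l' P)) (fun _ _ => Nat.zero_le _) hQ
  refine ⟨l', nrep l' Q, ?_, eval_nrep (hl' Q hQe), le_antisymm h5 (h1 Q hQe)⟩
  rw [nrep_smul]
  exact isEigenvector_smul hf hQe (inv_ne_zero (hl' Q hQe))

/-- **Cartwright–Sturmfels** in terms of `mult` -/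
theorem sum_mult {q : ℕ} (hq : 2 ≤ q) (f : MvPolynomial (Fin N) ℂ) (hf : f.IsHomogeneous (q + 1))
    (hfin : (eigenpoints f).Finite) :
    (∀ P ∈ eigenpoints f, 1 ≤ mult f P) ∧ ∑ P ∈ hfin.toFinset, mult f P = DD q N := by
  obtain ⟨l, hl⟩ := exists_chart hfin
  obtain ⟨h1, h2⟩ := sum_mulAt hq f hf hfin l hl
  have h3 : ∀ P ∈ eigenpoints f, mult f P = mulAt (chartIdeal f l) (nrep l P) := by
    intro P hP
    rw [mult_eq, mulAt_chartIdeal hf (lP P) l P.rep (eval_lP P) (hl P hP)]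
    rfl
  refine ⟨fun P hP => (h1 P hP).trans_eq (h3 P hP).symm, ?_⟩
  rw [← h2]
  exact Finset.sum_congr rfl fun P hP => h3 P (hfin.mem_toFinset.mp hP)

/-- the hypothesis `hCS` of `EY.final_iff` -/
theorem hCS {q n : ℕ} (hq : 2 ≤ q) :
    ∀ f : MvPolynomial (Fin (n + 1)) ℂ, f.IsHomogeneous (q + 1) → ∀ hfin : (eigenpoints f).Finite,
      (∀ P ∈ eigenpoints f, 1 ≤ mult f P) ∧ ∑ P ∈ hfin.toFinset, mult f P = DD q (n + 1) :=
  fun f hf hfin => sum_mult hq f hf hfin

end

end EY.CS
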