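import Pool.Agent.helper65.CS.Main

set_option autoImplicit false
set_option linter.unusedSectionVars false

/-!
# CS-Quad: the degree of a finite eigenscheme of a quadratic form in `n` variables is `n`
-/

namespace EY.CS

open MvPolynomial

noncomputable section

section linear

variable {n : ℕ} (a : Fin n → Fin n → ℂ) (l : Fin n → ℂ)

/-- the transposed map on linear forms -/
def TA : (Fin n → ℂ) →ₗ[ℂ] (Fin n → ℂ) where
  toFun m := fun k => ∑ i, m i * a i k
  map_add' m m' := by
    funext k
    simp only [Pi.add_apply, add_mul, Finset.sum_add_distrib]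
  map_smul' c m := by
    funext k
    simp only [Pi.smul_apply, smul_eq_mul, RingHom.id_apply, Finset.mul_sum, mul_assoc]

lemma TA_apply (m : Fin n → ℂ) (k : Fin n) : TA a m k = ∑ i, m i * a i k := rfl

lemma LL_add (m m' : Fin n → ℂ) : LL (m + m') = LL m + LL m' := by
  unfold LL
  simp only [Pi.add_apply, map_add, add_mul, Finset.sum_add_distrib]

lemma LL_smul (c : ℂ) (m : Fin n → ℂ) : LL (c • m) = C c * LL m := by
  unfold LL
  simp only [Pi.smul_apply, smul_eq_mul, map_mul, Finset.mul_sum, mul_assoc]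

lemma LL_single (i : Fin n) : LL (Pi.single i (1 : ℂ)) = X i := by
  unfold LL
  rw [Finset.sum_eq_single i]
  · rw [Pi.single_eq_same, map_one, one_mul]
  · intro j _ hj
    rw [Pi.single_eq_of_ne hj, map_zero, zero_mul]
  · intro h
    exact absurd (Finset.mem_univ i) h

lemma LL_TA (m : Fin n → ℂ) : LL (TA a m) = DL (fun i => LL (a i)) m := by
  unfold LL DL
  simp only [TA_apply, map_sum, Finset.sum_mul, map_mul, Finset.mul_sum, LL]
  rw [Finset.sum_comm]
  simp only [mul_assoc]

lemma TA_single (i : Fin n) : TA a (Pi.single i 1) = a i := by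
  funext k
  rw [TA_apply, Finset.sum_eq_single i]
  · rw [Pi.single_eq_same, one_mul]
  · intro j _ hj
    rw [Pi.single_eq_of_ne hj, zero_mul]
  · intro h
    exact absurd (Finset.mem_univ i) h

/-- the map `p ↦ p(T) l` -/
def Th : Polynomial ℂ →ₗ[ℂ] (Fin n → ℂ) :=
  (LinearMap.applyₗ l).comp (Polynomial.aeval (TA a)).toLinearMap

lemma Th_apply (p : Polynomial ℂ) : Th a l p = Polynomial.aeval (TA a) p l := rfl

lemma Th_mul (p q : Polynomial ℂ) : Th a l (p * q) = Polynomial.aeval (TA a) p (Th a l q) := by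
  rw [Th_apply, Th_apply, map_mul]
  rfl

lemma Th_X_mul (q : Polynomial ℂ) : Th a l (Polynomial.X * q) = TA a (Th a l q) := by
  rw [Th_mul, Polynomial.aeval_X]

lemma Th_one : Th a l 1 = l := by
  rw [Th_apply, map_one]
  rfl

/-- cyclicity -/
theorem Th_surjective
    (h : ∀ v : Fin n → ℂ, v ≠ 0 → (∃ μ : ℂ, ∀ i, ∑ j, a i j * v j = μ * v i) → ∑ i, l i * v i ≠ 0) :
    Function.Surjective (Th a l) := by
  rw [← LinearMap.range_eq_top]
  by_contra hne
  obtain ⟨φ, hφ0, hφ⟩ := Submodule.exists_le_ker_of_lt_top _ (lt_top_iff_ne_top.mpr hne)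
  -- the vectors killed by the range
  let Z : Submodule ℂ (Fin n → ℂ) :=
    { carrier := {v | ∀ w ∈ LinearMap.range (Th a l), ∑ i, w i * v i = 0}
      add_mem' := by
        intro v v' hv hv' w hw
        simp only [Pi.add_apply, mul_add, Finset.sum_add_distrib]
        rw [hv w hw, hv' w hw, add_zero]
      zero_mem' := by
        intro w _
        simp
      smul_mem' := by
        intro c v hv w hw
        have h1 : ∑ i, w i * (c • v) i = c * ∑ i, w i * v i := by
          rw [Finset.mul_sum]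
          exact Finset.sum_congr rfl fun i _ => by rw [Pi.smul_apply, smul_eq_mul]; ring
        rw [h1, hv w hw, mul_zero] }
  have hφe : ∀ w : Fin n → ℂ, φ w = ∑ i, w i * φ (Pi.single i 1) := by
    intro w
    conv_lhs => rw [pi_eq_sum_univ' w]
    rw [map_sum]
    refine Finset.sum_congr rfl fun i _ => ?_
    rw [map_smul, smul_eq_mul]
  have hmem : (fun i => φ (Pi.single i 1)) ∈ Z := by
    intro w hw
    rw [← hφe]
    exact hφ hw
  have hv0 : (fun i => φ (Pi.single i (1 : ℂ))) ≠ 0 := by
    intro h0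
    apply hφ0
    ext i
    have h1 := congrFun h0 i
    simpa using h1
  -- `A` acts on `Z`
  let A : (Fin n → ℂ) →ₗ[ℂ] (Fin n → ℂ) :=
    { toFun := fun v i => ∑ j, a i j * v j
      map_add' := by
        intro v v'
        funext i
        simp only [Pi.add_apply, mul_add, Finset.sum_add_distrib]
      map_smul' := by
        intro c v
        funext i
        simp only [Pi.smul_apply, smul_eq_mul, RingHom.id_apply, Finset.mul_sum]
        exact Finset.sum_congr rfl fun j _ => by ring }
  have hA : ∀ v, ∀ i, A v i = ∑ j, a i j * v j := fun v i => rfl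
  have hAZ : ∀ v ∈ Z, A v ∈ Z := by
    intro v hv w hw
    obtain ⟨p, rfl⟩ := hw
    have h1 := hv (TA a (Th a l p)) ⟨Polynomial.X * p, Th_X_mul a l p⟩
    rw [← h1]
    simp only [hA, TA_apply, Finset.mul_sum, Finset.sum_mul]
    rw [Finset.sum_comm]
    exact Finset.sum_congr rfl fun i _ => Finset.sum_congr rfl fun j _ => by ring
  have hnt : Nontrivial Z := ⟨⟨⟨_, hmem⟩, 0, fun h0 => hv0 (congrArg Subtype.val h0)⟩⟩
  obtain ⟨μ, hμ⟩ := Module.End.exists_eigenvalue (A.restrict hAZ)
  obtain ⟨z, hz⟩ := hμ.exists_hasEigenvector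
  have hz1 : A z.1 = μ • z.1 := by
    have := hz.apply_eq_smul
    exact congrArg Subtype.val this
  have hz0 : z.1 ≠ 0 := fun h0 => hz.2 (Subtype.ext h0)
  refine h z.1 hz0 ⟨μ, fun i => ?_⟩ (z.2 l ⟨1, Th_one a l⟩)
  have := congrFun hz1 i
  rw [hA] at this
  exact this

/-- the ideal of the polynomials killing `l` -/
def Il : Ideal (Polynomial ℂ) where
  carrier := {p | Th a l p = 0}
  add_mem' := by
    intro p q hp hq
    change Th a l (p + q) = 0
    rw [map_add, hp, hq, add_zero]
  zero_mem' := map_zero _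
  smul_mem' := by
    intro c p hp
    change Th a l (c * p) = 0
    rw [Th_mul, hp, map_zero]

lemma mem_Il (p : Polynomial ℂ) : p ∈ Il a l ↔ Th a l p = 0 := Iff.rfl

theorem dim_one
    (h : ∀ v : Fin n → ℂ, v ≠ 0 → (∃ μ : ℂ, ∀ i, ∑ j, a i j * v j = μ * v i) → ∑ i, l i * v i ≠ 0) :
    Module.finrank ℂ (MvPolynomial (Fin n) ℂ ⧸ chI (fun i => LL (a i)) l) = n := by
  have hsurj := Th_surjective a l h
  -- dimension of `ℂ[t]/Il`
  have hdim : Module.finrank ℂ (Polynomial ℂ ⧸ Il a l) = n := by
    have e := (Th a l).quotKerEquivOfSurjective hsurj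
    have h1 : LinearMap.ker (Th a l) = (Il a l).restrictScalars ℂ := by
      ext p
      rfl
    rw [← (Submodule.Quotient.restrictScalarsEquiv ℂ (Il a l)).finrank_eq, ← h1, e.finrank_eq]
    simp
  refine Eq.trans ?_ hdim
  -- the chart ring
  set f : Fin n → MvPolynomial (Fin n) ℂ := fun i => LL (a i) with hf
  choose P hP using fun i => hsurj (Pi.single i 1)
  set K := Polynomial ℂ ⧸ Il a l with hK
  set mkK : Polynomial ℂ →ₐ[ℂ] K := Ideal.Quotient.mkₐ ℂ (Il a l) with hmkK
  have hmk : ∀ p q : Polynomial ℂ, Th a l p = Th a l q → mkK p = mkK q := by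
    intro p q hpq
    change Ideal.Quotient.mk _ p = Ideal.Quotient.mk _ q
    rw [Ideal.Quotient.eq, mem_Il, map_sub, hpq, sub_self]
  set ev : MvPolynomial (Fin n) ℂ →ₐ[ℂ] K := aeval (fun i => mkK (P i)) with hev
  have hevX : ∀ i, ev (X i) = mkK (P i) := fun i => aeval_X _ i
  have hevLL : ∀ (m : Fin n → ℂ) (p : Polynomial ℂ), Th a l p = m → ev (LL m) = mkK p := by
    intro m p hp
    have h1 : ev (LL m) = mkK (∑ i, m i • P i) := by
      unfold LL
      rw [map_sum, map_sum]
      refine Finset.sum_congr rfl fun i _ => ?_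
      rw [map_mul, hevX, map_smul]
      have h2 : ev (C (m i)) = algebraMap ℂ K (m i) := ev.commutes (m i)
      rw [h2, ← Algebra.smul_def]
    rw [h1]
    apply hmk
    rw [hp, map_sum]
    conv_rhs => rw [pi_eq_sum_univ' m]
    refine Finset.sum_congr rfl fun i _ => ?_
    rw [map_smul, hP]
  have hevf : ∀ i, ev (f i) = mkK Polynomial.X * ev (X i) := by
    intro i
    have h1 : Th a l (Polynomial.X * P i) = a i := by rw [Th_X_mul, hP, TA_single]
    rw [hf, hevLL (a i) _ h1, map_mul, hevX]
  have hevl : ev (LL l) = 1 := by rw [hevLL l 1 (Th_one a l), map_one]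
  have hevI : ∀ g ∈ chI f l, ev g = 0 := by
    intro g hg
    have : chI f l ≤ RingHom.ker ev := by
      unfold chI
      rw [sup_le_iff, Ideal.span_le, Ideal.span_le]
      constructor
      · rintro _ ⟨i, j, rfl⟩
        change ev _ = 0
        rw [map_sub, map_mul, map_mul, hevf, hevf]
        ring
      · rw [Set.singleton_subset_iff]
        change ev _ = 0
        rw [map_sub, map_one, hevl, sub_self]
    exact this hg
  set B := MvPolynomial (Fin n) ℂ ⧸ chI f l with hB
  set mkB : MvPolynomial (Fin n) ℂ →ₐ[ℂ] B := Ideal.Quotient.mkₐ ℂ (chI f l) with hmkB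
  have hmkBs : Function.Surjective mkB := Ideal.Quotient.mkₐ_surjective ℂ _
  obtain ⟨E1, hE1⟩ := lift_surj mkB hmkBs ev (fun g hg => hevI g (Ideal.Quotient.eq_zero_iff_mem.mp hg))
  -- the other map
  set D := mkB (DL f l) with hD
  have hBf : ∀ j, mkB (f j) = mkB (X j) * D := by
    intro j
    have h1 : mkB (f j - X j * DL f l) = 0 := Ideal.Quotient.eq_zero_iff_mem.mpr (chI_mem f l j)
    rw [map_sub, map_mul] at h1
    exact sub_eq_zero.mp h1
  have hBl : mkB (LL l) = 1 := by
    have h1 : mkB (LL l - 1) = 0 :=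
      Ideal.Quotient.eq_zero_iff_mem.mpr (Ideal.mem_sup_right (Ideal.subset_span rfl))
    rw [map_sub, map_one] at h1
    exact sub_eq_zero.mp h1
  have hBT : ∀ m, mkB (LL (TA a m)) = D * mkB (LL m) := by
    intro m
    rw [LL_TA]
    have hL : LL m = ∑ i, C (m i) * X i := rfl
    rw [hL]
    change mkB (∑ i, C (m i) * f i) = _
    rw [map_sum, map_sum, Finset.mul_sum]
    refine Finset.sum_congr rfl fun i _ => ?_
    rw [map_mul, map_mul, hBf]
    ring
  have hBp : ∀ (p : Polynomial ℂ) (m : Fin n → ℂ),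
      mkB (LL (Polynomial.aeval (TA a) p m)) = Polynomial.aeval D p * mkB (LL m) := by
    intro p
    induction p using Polynomial.induction_on with
    | C c =>
      intro m
      rw [Polynomial.aeval_C, Polynomial.aeval_C]
      change mkB (LL (c • m)) = _
      rw [LL_smul, map_mul]
      rfl
    | add p q hp hq =>
      intro m
      rw [map_add, map_add, LinearMap.add_apply, LL_add, map_add, hp, hq, add_mul]
    | monomial k c ih =>
      intro m
      have h1 : Polynomial.aeval (TA a) (Polynomial.C c * Polynomial.X ^ (k + 1)) m =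
          Polynomial.aeval (TA a) (Polynomial.C c * Polynomial.X ^ k) (TA a m) := by
        have h2 : (Polynomial.C c * Polynomial.X ^ (k + 1) : Polynomial ℂ) =
            (Polynomial.C c * Polynomial.X ^ k) * Polynomial.X := by ring
        rw [h2, map_mul (Polynomial.aeval (TA a)), Polynomial.aeval_X]
        rfl
      have h3 : Polynomial.aeval D (Polynomial.C c * Polynomial.X ^ (k + 1)) =
          Polynomial.aeval D (Polynomial.C c * Polynomial.X ^ k) * D := by
        have h2 : (Polynomial.C c * Polynomial.X ^ (k + 1) : Polynomial ℂ) =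
            (Polynomial.C c * Polynomial.X ^ k) * Polynomial.X := by ring
        rw [h2, map_mul (Polynomial.aeval D), Polynomial.aeval_X]
      rw [h1, h3, ih, hBT]
      ring
  have hBTh : ∀ p : Polynomial ℂ, mkB (LL (Th a l p)) = Polynomial.aeval D p := by
    intro p
    rw [Th_apply, hBp, hBl, mul_one]
  obtain ⟨E2, hE2⟩ := lift_surj mkK (Ideal.Quotient.mkₐ_surjective ℂ _) (Polynomial.aeval D) (fun p hp => by
    have h1 : Th a l p = 0 := (mem_Il a l p).mp (Ideal.Quotient.eq_zero_iff_mem.mp hp)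
    rw [← hBTh, h1]
    have h2 : LL (0 : Fin n → ℂ) = 0 := by
      unfold LL
      simp
    rw [h2, map_zero])
  have e1 : (E2.comp E1) = AlgHom.id ℂ B := by
    have h1 : (E2.comp E1).comp mkB = mkB := by
      apply MvPolynomial.algHom_ext
      intro i
      rw [AlgHom.comp_apply, AlgHom.comp_apply, hE1, hevX, hE2, ← hBTh, hP, LL_single]
    ext x
    obtain ⟨g, rfl⟩ := hmkBs x
    exact DFunLike.congr_fun h1 g
  have e2 : (E1.comp E2) = AlgHom.id ℂ K := by
    have h1 : (E1.comp E2).comp mkK = mkK := by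
      apply Polynomial.algHom_ext
      rw [AlgHom.comp_apply, AlgHom.comp_apply, hE2, Polynomial.aeval_X, hD, hE1, ← LL_TA, ]
      exact hevLL _ _ (by rw [← mul_one Polynomial.X, Th_X_mul, Th_one])
    ext x
    obtain ⟨g, rfl⟩ := Ideal.Quotient.mkₐ_surjective ℂ (Il a l) x
    exact DFunLike.congr_fun h1 g
  exact (AlgEquiv.ofAlgHom E1 E2 e2 e1).toLinearEquiv.finrank_eq

end linear

/-- a form of degree one is a linear form -/
lemma eq_LL {n : ℕ} {g : MvPolynomial (Fin n) ℂ} (hg : g.IsHomogeneous 1) :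
    g = LL (fun k => g.coeff (Finsupp.single k 1)) := by
  ext d
  by_cases hd : d.degree = 1
  · obtain ⟨k, rfl⟩ : ∃ k, d = Finsupp.single k 1 := by
      exact (Finsupp.sum_eq_one_iff d).mp hd
    unfold LL
    rw [coeff_sum, Finset.sum_eq_single k]
    · rw [coeff_C_mul, coeff_X', if_pos rfl, mul_one]
    · intro j _ hj
      rw [coeff_C_mul, coeff_X', if_neg, mul_zero]
      intro h
      exact hj (Finsupp.single_left_injective one_ne_zero h)
    · intro h
      exact absurd (Finset.mem_univ k) h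
  · rw [hg.coeff_eq_zero hd, (LL_hom _).coeff_eq_zero hd]

variable {N : ℕ}

/-- **the degree of the chart for quadratic forms** -/
theorem finrank_chart_one (f : MvPolynomial (Fin N) ℂ) (hf : f.IsHomogeneous 2)
    (l : Fin N → ℂ) (hl : ∀ P ∈ eigenpoints f, eval P.rep (linForm l) ≠ 0) :
    Module.finrank ℂ (MvPolynomial (Fin N) ℂ ⧸ chartIdeal f l) = N := by
  have hf' : ∀ i, (pderiv i f).IsHomogeneous 1 := by
    intro i
    exact hf.pderiv (i := i)
  rw [← chI_eq]
  have h1 : (fun i => pderiv i f) = fun i => LL (fun k => (pderiv i f).coeff (Finsupp.single k 1)) := by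
    funext i
    exact eq_LL (hf' i)
  rw [h1]
  apply dim_one (fun i k => (pderiv i f).coeff (Finsupp.single k 1)) l
  rintro v hv ⟨μ, hμ⟩
  have h2 : ∀ i, eval v (pderiv i f) = μ * v i := by
    intro i
    rw [eq_LL (hf' i), eval_LL]
    exact hμ i
  have hE : IsEigenvector f v := ⟨hv, fun i j => by rw [h2, h2]; ring⟩
  have hP := mk_mem_eigenpoints (q := 1) hf hE
  obtain ⟨b, hb⟩ := Projectivization.exists_smul_eq_mk_rep ℂ v hv
  have hb' : (Projectivization.mk ℂ v hv).rep = (b : ℂ) • v := hb.symm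
  have hl1 := hl _ hP
  rw [← eval_LL, LL_eq]
  intro h0
  apply hl1
  rw [hb', eval_scale (linForm_isHomogeneous l) (fun i => rfl : ∀ i, ((b : ℂ) • v) i = (b : ℂ) * v i), h0,
    mul_zero]

theorem DD_one (N : ℕ) : DD 1 N = N := by
  unfold DD
  simp

/-- the total degree theorem for quadratic forms -/
theorem sum_mulAt_one (f : MvPolynomial (Fin N) ℂ) (hf : f.IsHomogeneous 2)
    (hfin : (eigenpoints f).Finite) (l : Fin N → ℂ) (hl : ∀ P ∈ eigenpoints f, eval P.rep (linForm l) ≠ 0) :
    (∀ P ∈ eigenpoints f, 1 ≤ mulAt (chartIdeal f l) (nrep l P)) ∧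
    ∑ P ∈ hfin.toFinset, mulAt (chartIdeal f l) (nrep l P) = N := by
  classical
  obtain ⟨h1, h2⟩ := finrank_eq_sum_mulAt (chartIdeal f l) (hfin.toFinset.image (nrep l))
    (zeros_eq (q := 1) hf hfin l hl)
  constructor
  · intro P hP
    have := h1 (nrep l P)
    have hz := (zeros_eq (q := 1) hf hfin l hl (nrep l P)).mp
      (Finset.mem_image.mpr ⟨P, hfin.mem_toFinset.mpr hP, rfl⟩)
    have hne : (chartIdeal f l).map (algebraMap (MvPolynomial (Fin N) ℂ)
        (Localization.AtPrime (pt (nrep l P)))) ≠ ⊤ := by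
      intro h
      have h3 : chartIdeal f l ≤ pt (nrep l P) := fun g hg => mem_pt.mpr (hz g hg)
      have h4 := Ideal.map_mono (f := algebraMap (MvPolynomial (Fin N) ℂ)
        (Localization.AtPrime (pt (nrep l P)))) h3
      rw [h, Localization.AtPrime.map_eq_maximalIdeal, top_le_iff] at h4
      exact (IsLocalRing.maximalIdeal.isMaximal _).ne_top h4
    have : Nontrivial (Localization.AtPrime (pt (nrep l P)) ⧸ (chartIdeal f l).map
      (algebraMap (MvPolynomial (Fin N) ℂ) (Localization.AtPrime (pt (nrep l P))))) :=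
      Ideal.Quotient.nontrivial_iff.mpr hne
    exact Module.finrank_pos
  · refine Eq.trans ?_ (finrank_chart_one f hf l hl)
    rw [h2, Finset.sum_image]
    intro P hP P' hP' h
    exact nrep_injOn l hl (hfin.mem_toFinset.mp hP) (hfin.mem_toFinset.mp hP') h

/-- the total degree theorem for quadratic forms in terms of `mult` -/
theorem sum_mult_one (f : MvPolynomial (Fin N) ℂ) (hf : f.IsHomogeneous 2)
    (hfin : (eigenpoints f).Finite) :
    (∀ P ∈ eigenpoints f, 1 ≤ mult f P) ∧ ∑ P ∈ hfin.toFinset, mult f P = N := by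
  obtain ⟨l, hl⟩ := exists_chart hfin
  obtain ⟨h1, h2⟩ := sum_mulAt_one f hf hfin l hl
  have h3 : ∀ P ∈ eigenpoints f, mult f P = mulAt (chartIdeal f l) (nrep l P) := by
    intro P hP
    rw [mult_eq, mulAt_chartIdeal hf (lP P) l P.rep (eval_lP P) (hl P hP)]
    rfl
  refine ⟨fun P hP => (h1 P hP).trans_eq (h3 P hP).symm, ?_⟩
  refine Eq.trans ?_ h2
  exact Finset.sum_congr rfl fun P hP => h3 P (hfin.mem_toFinset.mp hP)

end

end EY.CS
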