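import Pool.Agent.helper65.CS.Quad
import Pool.Agent.helper52.D23.Two

set_option autoImplicit false

namespace EY.CS

open MvPolynomial

/-- the total degree theorem for quadratic forms, in the form needed by `EY.final_all` -/
theorem cs1 (N : ℕ) : CS1 N := fun f hf hfin => sum_mult_one f hf hfin

end EY.CS
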