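import Pool.Agent.helper50.EY.Split
import Pool.Agent.helper40.EY.Chart

set_option autoImplicit false
set_option linter.unusedSectionVars false

/-!
# CS-Cone: the part away from the origin of the affine scheme `f_i + c L^(q-1) x_i = x_i` is a cyclic cover of
degree `q - 1` of the projective scheme `rank (x | f) ≤ 1` in the chart `L = 1`.
-/

namespace EY.CS

open MvPolynomial

noncomputable section

variable {σ : Type} [Fintype σ]

/-- the linear form -/
def LL (l : σ → ℂ) : MvPolynomial σ ℂ := ∑ i, C (l i) * X i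

/-- the combination of the `f i` -/
def DL (f : σ → MvPolynomial σ ℂ) (l : σ → ℂ) : MvPolynomial σ ℂ := ∑ i, C (l i) * f i

/-- `∑ l_i f_i + c L^q` -/
def MM (f : σ → MvPolynomial σ ℂ) (q : ℕ) (l : σ → ℂ) (c : ℂ) : MvPolynomial σ ℂ :=
  DL f l + C c * LL l ^ q

/-- the affine system -/
def FF (f : σ → MvPolynomial σ ℂ) (q : ℕ) (l : σ → ℂ) (c : ℂ) (i : σ) : MvPolynomial σ ℂ :=
  f i + C c * LL l ^ (q - 1) * X i - X i

/-- the ideal of the scheme in the chart `L = 1` -/
def chI (f : σ → MvPolynomial σ ℂ) (l : σ → ℂ) : Ideal (MvPolynomial σ ℂ) :=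
  Ideal.span {g | ∃ i j, g = X i * f j - X j * f i} ⊔ Ideal.span {LL l - 1}

lemma LL_hom (l : σ → ℂ) : (LL l).IsHomogeneous 1 :=
  IsHomogeneous.sum _ _ _ fun i _ => isHomogeneous_C_mul_X _ _

lemma DL_hom {q : ℕ} {f : σ → MvPolynomial σ ℂ} (hf : ∀ i, (f i).IsHomogeneous q) (l : σ → ℂ) :
    (DL f l).IsHomogeneous q :=
  IsHomogeneous.sum _ _ _ fun i _ => (hf i).C_mul _

lemma MM_hom {q : ℕ} {f : σ → MvPolynomial σ ℂ} (hf : ∀ i, (f i).IsHomogeneous q) (l : σ → ℂ) (c : ℂ) :
    (MM f q l c).IsHomogeneous q := by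
  have h1 : (LL l ^ q).IsHomogeneous (1 * q) := (LL_hom l).pow q
  rw [one_mul] at h1
  exact (DL_hom hf l).add (h1.C_mul _)

/-- `∑ l_i F_i = M - L` -/
lemma sum_FF {q : ℕ} (hq : 1 ≤ q) (f : σ → MvPolynomial σ ℂ) (l : σ → ℂ) (c : ℂ) :
    ∑ i, C (l i) * FF f q l c i = MM f q l c - LL l := by
  have h1 : ∀ i, C (l i) * FF f q l c i =
      C (l i) * f i + (C c * LL l ^ (q - 1)) * (C (l i) * X i) - C (l i) * X i := by
    intro i
    unfold FF
    ring
  simp only [h1]
  rw [Finset.sum_sub_distrib, Finset.sum_add_distrib, ← Finset.mul_sum]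
  change DL f l + C c * LL l ^ (q - 1) * LL l - LL l = _
  unfold MM
  obtain ⟨r, rfl⟩ : ∃ r, q = r + 1 := ⟨q - 1, by omega⟩
  rw [Nat.add_sub_cancel, pow_succ]
  ring

/-- in the chart `L = 1`: `f_j = x_j D` -/
lemma chI_mem (f : σ → MvPolynomial σ ℂ) (l : σ → ℂ) (j : σ) : f j - X j * DL f l ∈ chI f l := by
  have h1 : f j - X j * DL f l = ∑ i, C (l i) * (X i * f j - X j * f i) - f j * (LL l - 1) := by
    have h2 : ∀ i, C (l i) * (X i * f j - X j * f i) = f j * (C (l i) * X i) - X j * (C (l i) * f i) := by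
      intro i; ring
    simp only [h2]
    rw [Finset.sum_sub_distrib, ← Finset.mul_sum, ← Finset.mul_sum]
    change _ = f j * LL l - X j * DL f l - _
    ring
  rw [h1]
  refine Ideal.sub_mem _ (Ideal.sum_mem _ fun i _ => Ideal.mul_mem_left _ _
    (Ideal.mem_sup_left (Ideal.subset_span ⟨i, j, rfl⟩))) (Ideal.mul_mem_left _ _
    (Ideal.mem_sup_right (Ideal.subset_span rfl)))

/-- lifting along a surjection -/
lemma lift_surj {R B T : Type} [CommRing R] [CommRing B] [CommRing T] [Algebra ℂ R] [Algebra ℂ B] [Algebra ℂ T]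
    (π : R →ₐ[ℂ] B) (hπ : Function.Surjective π) (φ : R →ₐ[ℂ] T) (h : ∀ g, π g = 0 → φ g = 0) :
    ∃ Φ : B →ₐ[ℂ] T, ∀ g, Φ (π g) = φ g := by
  set e := Ideal.quotientKerAlgEquivOfSurjective hπ with he
  refine ⟨(Ideal.Quotient.liftₐ (RingHom.ker π) φ (fun g hg => h g hg)).comp e.symm.toAlgHom, ?_⟩
  intro g
  have h1 : e (Ideal.Quotient.mk (RingHom.ker π) g) = π g := rfl
  rw [← h1]
  change (Ideal.Quotient.liftₐ (RingHom.ker π) φ (fun g hg => h g hg)) (e.symm (e _)) = φ g
  rw [e.symm_apply_apply]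
  rfl

/-- the cyclic cover `s ^ r * m = 1` of `A` -/
lemma exists_cover {A : Type} [CommRing A] [Algebra ℂ A] (m : A) (hm : IsUnit m) (r : ℕ) (hr : r ≠ 0) :
    ∃ (T : Type) (_ : CommRing T) (_ : Algebra ℂ T) (i : A →ₐ[ℂ] T) (s : T),
      i m * s ^ r = 1 ∧
      (∀ {B : Type} [CommRing B] [Algebra ℂ B] (β : A →ₐ[ℂ] B) (b : B), β m * b ^ r = 1 →
        ∃ Φ : T →ₐ[ℂ] B, (∀ a, Φ (i a) = β a) ∧ Φ s = b) ∧
      (∀ Φ : T →ₐ[ℂ] T, (∀ a, Φ (i a) = i a) → Φ s = s → ∀ t, Φ t = t) ∧
      Module.finrank ℂ T = r * Module.finrank ℂ A := by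
  obtain ⟨um, rfl⟩ := hm
  set pol : Polynomial A := Polynomial.X ^ r - Polynomial.C ((um⁻¹ : Aˣ) : A) with hpol
  have hmonic : pol.Monic := Polynomial.monic_X_pow_sub_C _ hr
  set i : A →ₐ[ℂ] AdjoinRoot pol := IsScalarTower.toAlgHom ℂ A (AdjoinRoot pol) with hi
  have hi' : ∀ a, i a = AdjoinRoot.of pol a := fun a => rfl
  refine ⟨AdjoinRoot pol, inferInstance, inferInstance, i, AdjoinRoot.root pol, ?_, ?_, ?_, ?_⟩
  · have h1 := AdjoinRoot.eval₂_root pol
    rw [hpol, Polynomial.eval₂_sub, Polynomial.eval₂_pow, Polynomial.eval₂_X, Polynomial.eval₂_C, ← hpol] at h1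
    rw [sub_eq_zero.mp h1, hi', ← map_mul, Units.mul_inv, map_one]
  · intro B _ _ β b hb
    have h0 : pol.eval₂ (β : A →+* B) b = 0 := by
      rw [hpol, Polynomial.eval₂_sub, Polynomial.eval₂_pow, Polynomial.eval₂_X, Polynomial.eval₂_C, sub_eq_zero]
      have h2 : β (um : A) * β ((um⁻¹ : Aˣ) : A) = 1 := by
        rw [← map_mul, Units.mul_inv, map_one]
      have h3 : IsUnit (β (um : A)) := IsUnit.of_mul_eq_one _ h2
      exact h3.mul_left_cancel (hb.trans h2.symm)
    exact ⟨AdjoinRoot.liftAlgHom pol β b h0, fun a => AdjoinRoot.liftAlgHom_of pol β b h0 a,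
      AdjoinRoot.liftAlgHom_root pol β b h0⟩
  · intro Φ h1 h2 t
    obtain ⟨p, rfl⟩ := AdjoinRoot.mk_surjective t
    have h3 : AdjoinRoot.mk pol p = p.eval₂ (AdjoinRoot.of pol) (AdjoinRoot.root pol) := by
      rw [← AdjoinRoot.aeval_eq p, Polynomial.aeval_def]
      rfl
    rw [h3, Polynomial.eval₂_eq_sum_range, map_sum]
    refine Finset.sum_congr rfl fun j _ => ?_
    rw [map_mul, map_pow, h2, ← hi', h1]
  · rcases subsingleton_or_nontrivial A with hsub | hnt
    · have hsub' : Subsingleton (AdjoinRoot pol) := by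
        refine ⟨fun a b => ?_⟩
        have h1 : (1 : AdjoinRoot pol) = 0 := by
          rw [← map_one i, Subsingleton.elim (1 : A) 0, map_zero]
        rw [← mul_one a, ← mul_one b, h1, mul_zero, mul_zero]
      rw [Module.finrank_zero_of_subsingleton, Module.finrank_zero_of_subsingleton, mul_zero]
    · have hfree : Module.Free A (AdjoinRoot pol) := .of_basis (AdjoinRoot.powerBasis' hmonic).basis
      have hA : Module.finrank A (AdjoinRoot pol) = r := by
        rw [(AdjoinRoot.powerBasis' hmonic).finrank, AdjoinRoot.powerBasis'_dim, hpol,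
          Polynomial.natDegree_X_pow_sub_C]
      rw [← Module.finrank_mul_finrank ℂ A (AdjoinRoot pol), mul_comm, hA]

/-- **the cyclic cover**, abstract form: `A` is the ring of the chart `L = 1`, `B` the ring of the affine scheme
`F = 0` with `L` inverted -/
theorem cone_abs {q : ℕ} (hq : 2 ≤ q) (f : σ → MvPolynomial σ ℂ) (hf : ∀ i, (f i).IsHomogeneous q)
    (l : σ → ℂ) (c : ℂ) {A B : Type} [CommRing A] [CommRing B] [Algebra ℂ A] [Algebra ℂ B]
    (ρ : MvPolynomial σ ℂ →ₐ[ℂ] A) (hρ : Function.Surjective ρ) (hρI : ∀ g, ρ g = 0 ↔ g ∈ chI f l)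
    (hM : IsUnit (ρ (MM f q l c)))
    (π : MvPolynomial σ ℂ →ₐ[ℂ] B) (hπs : Function.Surjective π)
    (hπ1 : ∀ g, π g = 0 → ∃ n, LL l ^ n * g ∈ Ideal.span (Set.range (FF f q l c)))
    (hπF : ∀ i, π (FF f q l c i) = 0)
    (u : B) (hub : π (LL l) * u = 1) :
    Module.finrank ℂ B = (q - 1) * Module.finrank ℂ A := by
  obtain ⟨T, _, _, i, s, hs1, hT, hTe, hTf⟩ := exists_cover (ρ (MM f q l c)) hM (q - 1) (by omega)
  have hsu : IsUnit s := by
    refine IsUnit.of_mul_eq_one (i (ρ (MM f q l c)) * s ^ (q - 2)) ?_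
    rw [← hs1]
    have : q - 1 = q - 2 + 1 := by omega
    rw [this, pow_succ]
    ring
  -- the map α
  set α0 : MvPolynomial σ ℂ →ₐ[ℂ] T := i.comp ρ with hα0
  set α : MvPolynomial σ ℂ →ₐ[ℂ] T := aeval (fun i => α0 (X i) * s) with hα
  have hαX : ∀ i, α (X i) = α0 (X i) * s := fun i => aeval_X _ i
  have hαh : ∀ {g : MvPolynomial σ ℂ} {d : ℕ}, g.IsHomogeneous d → α g = α0 g * s ^ d := by
    intro g d hg
    rw [hα, aeval_scale hg]
    congr 1
    exact (algHom_eq_aeval α0 g).symm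
  have hα0I : ∀ g ∈ chI f l, α0 g = 0 := by
    intro g hg
    rw [hα0, AlgHom.comp_apply, (hρI g).mpr hg, map_zero]
  have hα0L : α0 (LL l) = 1 := by
    have h1 : α0 (LL l - 1) = 0 := hα0I _ (Ideal.mem_sup_right (Ideal.subset_span rfl))
    rw [map_sub, map_one] at h1
    exact sub_eq_zero.mp h1
  have hαL : α (LL l) = s := by rw [hαh (LL_hom l), hα0L, one_mul, pow_one]
  have hα0f : ∀ j, α0 (f j) = α0 (X j) * α0 (DL f l) := by
    intro j
    have h1 := hα0I _ (chI_mem f l j)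
    rw [map_sub, map_mul] at h1
    exact sub_eq_zero.mp h1
  have hα0M : α0 (MM f q l c) = α0 (DL f l) + algebraMap ℂ _ c := by
    unfold MM
    rw [map_add, map_mul, map_pow, hα0L, one_pow, mul_one]
    congr 1
    exact α0.commutes c
  have hM1 : α0 (MM f q l c) * s ^ (q - 1) = 1 := hs1
  have hαF : ∀ i, α (FF f q l c i) = 0 := by
    intro i
    unfold FF
    rw [map_sub, map_add, map_mul, map_mul, map_pow, hαL, hαX, hαh (hf i), hα0f]
    have h1 : α (C c) = algebraMap ℂ _ c := α.commutes c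
    rw [h1]
    have h2 : s ^ q = s ^ (q - 1) * s := by rw [← pow_succ]; congr 1; omega
    rw [h2]
    rw [hα0M] at hM1
    linear_combination (α0 (X i) * s) * hM1
  have hαJ : ∀ g ∈ Ideal.span (Set.range (FF f q l c)), α g = 0 := by
    intro g hg
    have : Ideal.span (Set.range (FF f q l c)) ≤ RingHom.ker α := by
      rw [Ideal.span_le]
      rintro _ ⟨i, rfl⟩
      exact hαF i
    exact this hg
  obtain ⟨αK, hαKπ⟩ := lift_surj π hπs α (by
    intro g hg
    obtain ⟨n, hn⟩ := hπ1 g hg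
    have h1 := hαJ _ hn
    rw [map_mul, map_pow, hαL] at h1
    exact (hsu.pow n).mul_right_eq_zero.mp h1)
  -- the map β
  set β0 : MvPolynomial σ ℂ →ₐ[ℂ] B := aeval (fun i => π (X i) * u) with hβ0
  have hβh : ∀ {g : MvPolynomial σ ℂ} {d : ℕ}, g.IsHomogeneous d → β0 g = π g * u ^ d := by
    intro g d hg
    rw [hβ0, aeval_scale hg]
    congr 1
    exact (algHom_eq_aeval π g).symm
  have hβI : ∀ g ∈ chI f l, β0 g = 0 := by
    intro g hg
    have : chI f l ≤ RingHom.ker β0 := by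
      unfold chI
      rw [sup_le_iff, Ideal.span_le, Ideal.span_le]
      constructor
      · rintro _ ⟨i, j, rfl⟩
        have h1 : (X i * f j - X j * f i).IsHomogeneous (1 + q) :=
          ((isHomogeneous_X _ i).mul (hf j)).sub ((isHomogeneous_X _ j).mul (hf i))
        change β0 _ = 0
        rw [hβh h1]
        have h2 : X i * f j - X j * f i = X i * FF f q l c j - X j * FF f q l c i := by
          unfold FF; ring
        rw [h2, map_sub, map_mul, map_mul, hπF, hπF, mul_zero, mul_zero, sub_zero, zero_mul]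
      · rw [Set.singleton_subset_iff]
        change β0 _ = 0
        rw [map_sub, map_one, hβh (LL_hom l), pow_one, hub, sub_self]
    exact this hg
  obtain ⟨βA, hβA⟩ := lift_surj ρ hρ β0 (fun g hg => hβI g ((hρI g).mp hg))
  have hβM : βA (ρ (MM f q l c)) * π (LL l) ^ (q - 1) = 1 := by
    rw [hβA, hβh (MM_hom hf l c)]
    have h1 : π (MM f q l c) = π (LL l) := by
      have h2 := congrArg π (sum_FF (by omega : 1 ≤ q) f l c)
      rw [map_sum, Finset.sum_eq_zero (fun i _ => by rw [map_mul, hπF, mul_zero]), map_sub] at h2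
      exact (sub_eq_zero.mp h2.symm)
    rw [h1]
    have h2 : π (LL l) * u ^ q * π (LL l) ^ (q - 1) = (π (LL l) * u) ^ q := by
      rw [mul_pow]
      have : π (LL l) ^ q = π (LL l) * π (LL l) ^ (q - 1) := by rw [← pow_succ']; congr 1; omega
      rw [this]; ring
    rw [h2, hub, one_pow]
  obtain ⟨β, hβof, hβs⟩ := hT βA (π (LL l)) hβM
  -- the two compositions
  have h12 : ∀ g, β (α g) = π g := by
    have : (β.comp α) = π := by
      apply MvPolynomial.algHom_ext
      intro j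
      rw [AlgHom.comp_apply, hαX, map_mul, hβs]
      change β (i (ρ (X j))) * _ = _
      rw [hβof, hβA, hβh (isHomogeneous_X _ j), pow_one, mul_assoc, mul_comm u, hub, mul_one]
    exact fun g => DFunLike.congr_fun this g
  have h21a : ∀ g, αK (β0 g) = α0 g := by
    have hu' : s * αK u = 1 := by
      have h1 := congrArg αK hub
      rw [map_mul, hαKπ, hαL, map_one] at h1
      exact h1
    have : (αK.comp β0) = α0 := by
      apply MvPolynomial.algHom_ext
      intro j
      rw [AlgHom.comp_apply, hβh (isHomogeneous_X _ j), pow_one, map_mul, hαKπ, hαX, mul_assoc, hu', mul_one]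
    exact fun g => DFunLike.congr_fun this g
  have e1 : (β.comp αK) = AlgHom.id ℂ _ := by
    ext x
    obtain ⟨g, rfl⟩ := hπs x
    rw [AlgHom.comp_apply, hαKπ, h12]
    rfl
  have e2 : (αK.comp β) = AlgHom.id ℂ _ := by
    ext x
    refine hTe (αK.comp β) ?_ ?_ x
    · intro a
      obtain ⟨g, rfl⟩ := hρ a
      rw [AlgHom.comp_apply, hβof, hβA, h21a]
      rfl
    · rw [AlgHom.comp_apply, hβs, hαKπ, hαL]
  have E := AlgEquiv.ofAlgHom αK β e2 e1
  rw [E.toLinearEquiv.finrank_eq, hTf]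

end

end EY.CS
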