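import Pool.Agent.helper65.CS.Cone
import Pool.Agent.helper40.EY.AffW

set_option autoImplicit false
set_option linter.unusedSectionVars false

/-!
# CS-Dim: the degree of a finite scheme `rank (x | f) ≤ 1` is `1 + q + ... + q ^ (n - 1)`
-/

namespace EY.CS

open MvPolynomial

noncomputable section

variable {n : ℕ}

lemma eval_LL (l v : Fin n → ℂ) : eval v (LL l) = ∑ i, l i * v i := by
  unfold LL
  simp

lemma eval_LL_zero (l : Fin n → ℂ) : eval (0 : Fin n → ℂ) (LL l) = 0 := by
  rw [eval_LL]; simp

/-- a linear form with given values nonzero -/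
theorem exists_LL (Z : Finset (Fin n → ℂ)) (hZ : ∀ v ∈ Z, v ≠ 0) :
    ∃ l : Fin n → ℂ, ∀ v ∈ Z, eval v (LL l) ≠ 0 := by
  classical
  have h1 : ∏ v ∈ Z, LL v ≠ 0 := by
    rw [Finset.prod_ne_zero_iff]
    intro v hv h0
    apply hZ v hv
    funext i
    have h2 := congrArg (eval (Pi.single i 1)) h0
    rw [eval_LL, map_zero] at h2
    simpa [Pi.single_apply] using h2
  obtain ⟨l, hl⟩ : ∃ l : Fin n → ℂ, eval l (∏ v ∈ Z, LL v) ≠ 0 := by
    by_contra hcon
    push_neg at hcon
    exact h1 (MvPolynomial.funext fun x => by rw [hcon x, map_zero])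
  refine ⟨l, fun v hv => ?_⟩
  rw [map_prod, Finset.prod_ne_zero_iff] at hl
  have h2 := hl v hv
  rw [eval_LL] at h2 ⊢
  simpa [mul_comm] using h2

/-- the dimension of the chart ring -/
theorem dim_aux {q : ℕ} (hq : 2 ≤ q) (f : Fin n → MvPolynomial (Fin n) ℂ) (hf : ∀ i, (f i).IsHomogeneous q)
    (l : Fin n → ℂ) (c : ℂ)
    (h : ∀ v : Fin n → ℂ, v ≠ 0 → (∀ i j, v i * eval v (f j) - v j * eval v (f i) = 0) →
      eval v (LL l) ≠ 0 ∧ eval v (MM f q l c) ≠ 0) :
    (q - 1) * Module.finrank ℂ (MvPolynomial (Fin n) ℂ ⧸ chI f l) + 1 = q ^ n := by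
  classical
  have hF0 : ∀ i, eval (0 : Fin n → ℂ) (f i) = 0 := by
    intro i
    have h1 := eval_scale (hf i) (p := (0 : Fin n → ℂ)) (p' := 0) (c := 0) (fun i => by simp)
    rw [h1, zero_pow (by omega), zero_mul]
  -- affine Bezout
  have hB := affBez (FF f q l c) (fun i => f i + C c * LL l ^ (q - 1) * X i) (fun _ => q) (fun _ => by omega)
    (fun i => by
      refine (hf i).add ?_
      have h1 : (LL l ^ (q - 1)).IsHomogeneous (1 * (q - 1)) := (LL_hom l).pow (q - 1)
      have h2 := (h1.C_mul c).mul (isHomogeneous_X ℂ i)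
      have h3 : 1 * (q - 1) + 1 = q := by omega
      rw [h3] at h2
      exact h2)
    (fun x hx => by
      by_contra hx0
      have hx' : ∀ i, eval x (f i) + c * eval x (LL l) ^ (q - 1) * x i = 0 := by
        intro i
        simpa using hx i
      have h1 := h x hx0 (fun i j => by
        have hi := hx' i
        have hj := hx' j
        linear_combination (x i) * hj - (x j) * hi)
      apply h1.2
      have h2 : eval x (MM f q l c) = ∑ i, l i * (eval x (f i) + c * eval x (LL l) ^ (q - 1) * x i) := by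
        unfold MM DL
        rw [map_add, map_sum, map_mul, map_pow, eval_C]
        have h3 : ∀ i, l i * (eval x (f i) + c * eval x (LL l) ^ (q - 1) * x i) =
            l i * eval x (f i) + (c * eval x (LL l) ^ (q - 1)) * (l i * x i) := fun i => by ring
        simp only [h3]
        have h4 : ∑ i, l i * x i = eval x (LL l) := (eval_LL l x).symm
        rw [Finset.sum_add_distrib, ← Finset.mul_sum, h4]
        congr 1
        · exact Finset.sum_congr rfl fun i _ => by rw [map_mul, eval_C]
        · have : eval x (LL l) ^ q = eval x (LL l) ^ (q - 1) * eval x (LL l) := by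
            rw [← pow_succ]; congr 1; omega
          rw [this]; ring
      rw [h2]
      exact Finset.sum_eq_zero fun i _ => by rw [hx' i, mul_zero])
    (fun i => by
      have h1 : FF f q l c i - (f i + C c * LL l ^ (q - 1) * X i) = - X i := by unfold FF; ring
      rw [h1, totalDegree_neg, totalDegree_X]
      omega)
  rw [Finset.prod_const, Finset.card_univ, Fintype.card_fin] at hB
  obtain ⟨hBf, hBd⟩ := hB
  -- the origin
  have hmul := (locBez (fun i => - X i) (FF f q l c) (fun _ => 1) (fun _ => by omega)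
    (fun i => (isHomogeneous_X ℂ i).neg) (fun x hx => by
      funext i
      simpa using hx i)
    (fun i => by
      have h1 : FF f q l c i - (- X i) = f i + C c * LL l ^ (q - 1) * X i := by unfold FF; ring
      have h2 : (f i + C c * LL l ^ (q - 1) * X i).IsHomogeneous q := by
        refine (hf i).add ?_
        have h1 : (LL l ^ (q - 1)).IsHomogeneous (1 * (q - 1)) := (LL_hom l).pow (q - 1)
        have h2 := (h1.C_mul c).mul (isHomogeneous_X ℂ i)
        have h3 : 1 * (q - 1) + 1 = q := by omega
        rw [h3] at h2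
        exact h2
      simp only [h1]
      exact lo_of_hom hq h2)).2
  rw [Finset.prod_const, one_pow] at hmul
  -- zeros
  have hzero : ∀ x : Fin n → ℂ, (∀ g ∈ Ideal.span (Set.range (FF f q l c)), eval x g = 0) →
      eval x (LL l) = 0 → x = 0 := by
    intro x hx hx1
    by_contra hx0
    have hx' : ∀ i, eval x (f i) + c * eval x (LL l) ^ (q - 1) * x i - x i = 0 := by
      intro i
      have := hx _ (Ideal.subset_span ⟨i, rfl⟩)
      unfold FF at this
      simpa using this
    exact (h x hx0 (fun i j => by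
      have hi := hx' i
      have hj := hx' j
      linear_combination (x i) * hj - (x j) * hi)).1 hx1
  set J := Ideal.span (Set.range (FF f q l c)) with hJ
  obtain ⟨m, c0, hm, hc0⟩ := exists_idem (Ideal.Quotient.mk J (LL l))
  set b := Ideal.Quotient.mk J (LL l) with hb
  set e := b ^ m * c0 with he
  have hee : e * e = e := by
    rw [he]
    calc b ^ m * c0 * (b ^ m * c0) = (b ^ m * (b ^ m * c0)) * c0 := by ring
      _ = b ^ m * c0 := by rw [hc0]
  have hsplit := finrank_idem e hee
  -- the part at the origin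
  have hpart1 : Module.finrank ℂ ((MvPolynomial (Fin n) ℂ ⧸ J) ⧸ Ideal.span {e}) = 1 := by
    rw [← hmul]
    rw [mulAt_eq_stable J 0 (LL l) (eval_LL_zero l) hzero m ?_]
    · have h1 : Ideal.span {e} = (Ideal.span {LL l ^ m}).map (Ideal.Quotient.mkₐ ℂ J) := by
        rw [Ideal.map_span, Set.image_singleton]
        change Ideal.span {e} = Ideal.span {Ideal.Quotient.mk J (LL l ^ m)}
        rw [map_pow, ← hb]
        apply le_antisymm
        · rw [Ideal.span_le, Set.singleton_subset_iff]
          exact Ideal.mem_span_singleton'.mpr ⟨c0, by rw [he]; ring⟩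
        · rw [Ideal.span_le, Set.singleton_subset_iff]
          exact Ideal.mem_span_singleton'.mpr ⟨b ^ m, by rw [he]; exact hc0⟩
      rw [h1]
      exact (DoubleQuot.quotQuotEquivQuotSupₐ ℂ J (Ideal.span {LL l ^ m})).toLinearEquiv.finrank_eq
    · obtain ⟨C0, hC0⟩ := Ideal.Quotient.mk_surjective c0
      have h2 : LL l ^ m = (LL l ^ m - LL l ^ (m + 1) * (LL l ^ (m - 1) * C0)) +
          (LL l ^ (m - 1) * C0) * LL l ^ (m + 1) := by ring
      rw [h2]
      refine Ideal.add_mem _ (Ideal.mem_sup_left ?_) (Ideal.mem_sup_right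
        (Ideal.mul_mem_left _ _ (Ideal.subset_span rfl)))
      rw [← Ideal.Quotient.eq_zero_iff_mem, map_sub, map_mul, map_mul, map_pow, map_pow, map_pow, hC0, ← hb]
      have h3 : b ^ (m + 1) * (b ^ (m - 1) * c0) = b ^ m * (b ^ m * c0) := by
        have : b ^ (m + 1) * (b ^ (m - 1) * c0) = b ^ (m + 1 + (m - 1)) * c0 := by rw [pow_add]; ring
        rw [this]
        have : b ^ m * (b ^ m * c0) = b ^ (m + m) * c0 := by rw [pow_add]; ring
        rw [this]
        congr 2
        omega
      rw [h3, hc0, sub_self]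
  -- the part away from the origin
  have hpart2 : Module.finrank ℂ ((MvPolynomial (Fin n) ℂ ⧸ J) ⧸ Ideal.span {1 - e}) =
      (q - 1) * Module.finrank ℂ (MvPolynomial (Fin n) ℂ ⧸ chI f l) := by
    refine cone_abs hq f hf l c (Ideal.Quotient.mkₐ ℂ (chI f l)) (Ideal.Quotient.mkₐ_surjective ℂ _)
      (fun g => Ideal.Quotient.eq_zero_iff_mem) ?_
      ((Ideal.Quotient.mkₐ ℂ (Ideal.span {1 - e})).comp (Ideal.Quotient.mkₐ ℂ J)) ?_ ?_ ?_
      (Ideal.Quotient.mk _ (b ^ (m - 1) * c0)) ?_
    · change IsUnit (Ideal.Quotient.mk (chI f l) (MM f q l c))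
      apply isUnit_of_no_zero
      intro v hv
      have h1 : eval v (LL l) = 1 := by
        have := hv _ (Ideal.mem_sup_right (Ideal.subset_span rfl) : LL l - 1 ∈ chI f l)
        rw [map_sub, map_one] at this
        exact sub_eq_zero.mp this
      have h2 : v ≠ 0 := by
        rintro rfl
        rw [eval_LL_zero] at h1
        exact zero_ne_one h1
      refine (h v h2 fun i j => ?_).2
      have := hv _ (Ideal.mem_sup_left (Ideal.subset_span ⟨i, j, rfl⟩) : X i * f j - X j * f i ∈ chI f l)
      simpa using this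
    · exact (Ideal.Quotient.mkₐ_surjective ℂ _).comp (Ideal.Quotient.mkₐ_surjective ℂ _)
    · intro g hg
      refine ⟨m, ?_⟩
      have h1 : Ideal.Quotient.mk J g ∈ Ideal.span {1 - e} := Ideal.Quotient.eq_zero_iff_mem.mp hg
      obtain ⟨a, ha⟩ := Ideal.mem_span_singleton'.mp h1
      rw [← Ideal.Quotient.eq_zero_iff_mem, map_mul, map_pow, ← hb, ← ha]
      have h2 : b ^ m * (a * (1 - e)) = a * (b ^ m - b ^ m * (b ^ m * c0)) := by rw [he]; ring
      rw [h2, hc0, sub_self, mul_zero]
    · intro i
      have h1 : Ideal.Quotient.mk J (FF f q l c i) = 0 :=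
        Ideal.Quotient.eq_zero_iff_mem.mpr (Ideal.subset_span ⟨i, rfl⟩)
      change Ideal.Quotient.mk _ (Ideal.Quotient.mk J (FF f q l c i)) = 0
      rw [h1, map_zero]
    · change Ideal.Quotient.mk _ b * Ideal.Quotient.mk _ (b ^ (m - 1) * c0) = 1
      rw [← map_mul]
      have h1 : b * (b ^ (m - 1) * c0) = 1 - (1 - e) := by
        rw [he]
        have : b ^ m = b * b ^ (m - 1) := by rw [← pow_succ']; congr 1; omega
        rw [this]; ring
      have h2 : Ideal.Quotient.mk (Ideal.span {1 - e}) (1 - e) = 0 :=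
        Ideal.Quotient.eq_zero_iff_mem.mpr (Ideal.subset_span rfl)
      rw [h1, map_sub, h2, map_one, sub_zero]
  rw [hBd, hpart1, hpart2] at hsplit
  omega

end

end EY.CS
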